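import Mathlib
import Pool.Agent.D0H56.MD.Defs

/-!
# Project MD, module 7 BAD (part a): the matrix of the multiplication by `f'`, archimedean bound
-/

set_option autoImplicit false

open Module Polynomial

namespace Pool.Agent.D0H87.MD

open Pool.Agent.D0H56.MD

/-- the matrix of the multiplication by `f'` modulo `f` -/
noncomputable def Am (f : ℤ[X]) : Matrix (Fin f.natDegree) (Fin f.natDegree) ℤ :=
  Matrix.of fun i j => ((X ^ (j : ℕ) * derivative f) %ₘ f).coeff i

theorem exists_enum (f : ℤ[X]) (hm : f.Monic) (hi : Irreducible f) :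
    ∃ x : Fin f.natDegree → ℂ, Function.Injective x ∧
      f.map (Int.castRingHom ℂ) = ∏ i, (X - C (x i)) := by
  classical
  set F : ℂ[X] := f.map (Int.castRingHom ℂ) with hF
  have hFm : F.Monic := hm.map _
  have hFd : F.natDegree = f.natDegree := hm.natDegree_map _
  have hQ : Irreducible (f.map (Int.castRingHom ℚ)) :=
    (hm.irreducible_iff_irreducible_map_fraction_map (K := ℚ)).1 hi
  have hsepQ : (f.map (Int.castRingHom ℚ)).Separable := hQ.separable
  have hsep : F.Separable := by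
    have h1 : F = (f.map (Int.castRingHom ℚ)).map (algebraMap ℚ ℂ) := by
      rw [hF, Polynomial.map_map]
      congr 1
    rw [h1]
    exact hsepQ.map
  have hnd : F.roots.Nodup := nodup_roots hsep
  have hsp : F.Splits := IsAlgClosed.splits F
  have hcard : Multiset.card F.roots = F.natDegree := hsp.natDegree_eq_card_roots.symm
  have hc2 : Fintype.card {r // r ∈ F.roots.toFinset} = f.natDegree := by
    rw [Fintype.card_coe, Multiset.toFinset_card_of_nodup hnd, hcard, hFd]
  let e : Fin f.natDegree ≃ {r // r ∈ F.roots.toFinset} := (Fintype.equivFinOfCardEq hc2).symm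
  refine ⟨fun i => (e i : ℂ), fun i j h => e.injective (Subtype.ext h), ?_⟩
  have h2 : F = (F.roots.map (fun a => X - C a)).prod := by
    have := hsp.eq_prod_roots_of_monic hFm
    exact this
  rw [Equiv.prod_comp e (fun r : {r // r ∈ F.roots.toFinset} => (X - C (r : ℂ)))]
  conv_lhs => rw [h2]
  rw [Finset.prod_coe_sort F.roots.toFinset (fun r => (X - C r : ℂ[X])), Finset.prod,
    Multiset.toFinset_val, Multiset.dedup_eq_self.2 hnd]

theorem aeval_root (f : ℤ[X]) (x : Fin f.natDegree → ℂ)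
    (hx : f.map (Int.castRingHom ℂ) = ∏ i, (X - C (x i))) (i : Fin f.natDegree) :
    aeval (x i) f = 0 := by
  rw [aeval_def, eval₂_eq_eval_map]
  have : algebraMap ℤ ℂ = Int.castRingHom ℂ := rfl
  rw [this, hx, eval_prod]
  exact Finset.prod_eq_zero (Finset.mem_univ i) (by simp)

theorem aeval_deriv (f : ℤ[X]) (x : Fin f.natDegree → ℂ)
    (hx : f.map (Int.castRingHom ℂ) = ∏ i, (X - C (x i))) (i : Fin f.natDegree) :
    aeval (x i) (derivative f) = ∏ j ∈ Finset.univ.erase i, (x i - x j) := by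
  classical
  rw [aeval_def, eval₂_eq_eval_map]
  have : algebraMap ℤ ℂ = Int.castRingHom ℂ := rfl
  rw [this, ← derivative_map, hx, derivative_prod_finset, eval_finsetSum,
    Finset.sum_eq_single i]
  · simp [eval_prod]
  · intro j _ hji
    rw [eval_mul, eval_prod]
    rw [Finset.prod_eq_zero (i := i) (Finset.mem_erase.2 ⟨hji.symm, Finset.mem_univ i⟩) (by simp)]
    simp
  · intro h; exact absurd (Finset.mem_univ i) h

theorem Am_vdm (f : ℤ[X]) (hm : f.Monic) (x : Fin f.natDegree → ℂ)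
    (hx : f.map (Int.castRingHom ℂ) = ∏ i, (X - C (x i))) :
    Matrix.vandermonde x * (Am f).map (Int.cast : ℤ → ℂ) =
      Matrix.diagonal (fun i => aeval (x i) (derivative f)) * Matrix.vandermonde x := by
  ext r j
  rw [Matrix.mul_apply, Matrix.diagonal_mul]
  simp only [Matrix.vandermonde_apply, Matrix.map_apply, Am, Matrix.of_apply]
  have hr := aeval_root f x hx r
  have h1 : aeval (x r) ((X ^ (j : ℕ) * derivative f) %ₘ f) =
      x r ^ (j : ℕ) * aeval (x r) (derivative f) := by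
    rw [aeval_modByMonic_eq_self_of_root hr, map_mul, map_pow, aeval_X]
  have hn0 : f ≠ 1 := by
    rintro rfl
    have := r.2
    simp at this
  have hd : ((X ^ (j : ℕ) * derivative f) %ₘ f).natDegree < f.natDegree :=
    natDegree_modByMonic_lt _ hm hn0
  rw [aeval_eq_sum_range' hd] at h1
  rw [mul_comm (aeval (x r) (derivative f)), ← h1, Finset.sum_range]
  apply Finset.sum_congr rfl
  intro i _
  rw [zsmul_eq_mul]
  ring

theorem Am_det (f : ℤ[X]) (hm : f.Monic) (x : Fin f.natDegree → ℂ) (hinj : Function.Injective x)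
    (hx : f.map (Int.castRingHom ℂ) = ∏ i, (X - C (x i))) :
    (((Am f).det : ℤ) : ℂ) = ∏ i, aeval (x i) (derivative f) := by
  have h1 := congrArg Matrix.det (Am_vdm f hm x hx)
  rw [Matrix.det_mul, Matrix.det_mul, Matrix.det_diagonal, mul_comm] at h1
  have h2 := mul_right_cancel₀ (Matrix.det_vandermonde_ne_zero_iff.2 hinj) h1
  rw [← h2]
  exact RingHom.map_det (Int.castRingHom ℂ) (Am f)

theorem vdm_bound {n : ℕ} (x : Fin n → ℂ) :
    ‖(Matrix.vandermonde x).det‖ ≤ (n.factorial : ℝ) * (∏ i, max 1 ‖x i‖) ^ n := by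
  rw [Matrix.det_apply']
  refine (norm_sum_le _ _).trans ?_
  have h1 : ∀ σ ∈ (Finset.univ : Finset (Equiv.Perm (Fin n))),
      ‖((Equiv.Perm.sign σ : ℤ) : ℂ) * ∏ i, Matrix.vandermonde x (σ i) i‖ ≤
        (∏ i, max 1 ‖x i‖) ^ n := by
    intro σ _
    rw [norm_mul]
    have h2 : ‖((Equiv.Perm.sign σ : ℤ) : ℂ)‖ = 1 := by
      rcases Int.units_eq_one_or (Equiv.Perm.sign σ) with h | h <;> simp [h]
    rw [h2, one_mul, norm_prod, ← Finset.prod_pow]
    rw [← Equiv.prod_comp σ (fun i => max 1 ‖x i‖ ^ n)]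
    apply Finset.prod_le_prod (fun i _ => norm_nonneg _)
    intro i _
    rw [Matrix.vandermonde_apply, norm_pow]
    calc ‖x (σ i)‖ ^ (i : ℕ) ≤ (max 1 ‖x (σ i)‖) ^ (i : ℕ) :=
          pow_le_pow_left₀ (norm_nonneg _) (le_max_right _ _) _
      _ ≤ (max 1 ‖x (σ i)‖) ^ n := pow_le_pow_right₀ (le_max_left _ _) i.2.le
  refine (Finset.sum_le_sum h1).trans ?_
  rw [Finset.sum_const, Finset.card_univ, Fintype.card_perm, Fintype.card_fin, nsmul_eq_mul]

theorem prod_diff {n : ℕ} (x : Fin n → ℂ) :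
    ∏ i, ∏ j ∈ Finset.univ.erase i, ‖x i - x j‖ = ‖(Matrix.vandermonde x).det‖ ^ 2 := by
  classical
  have h1 : ∀ i : Fin n, ∏ j ∈ Finset.univ.erase i, ‖x i - x j‖ =
      (∏ j ∈ Finset.Ioi i, ‖x i - x j‖) * ∏ j ∈ Finset.Iio i, ‖x i - x j‖ := by
    intro i
    rw [← Finset.prod_union]
    · apply Finset.prod_congr _ (fun _ _ => rfl)
      ext j
      simp only [Finset.mem_erase, Finset.mem_univ, and_true, Finset.mem_union, Finset.mem_Ioi,
        Finset.mem_Iio]
      constructor
      · intro h; exact (lt_or_gt_of_ne h).symm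
      · rintro (h | h)
        · exact h.ne'
        · exact h.ne
    · rw [Finset.disjoint_left]
      intro j hj hj'
      rw [Finset.mem_Ioi] at hj
      rw [Finset.mem_Iio] at hj'
      exact absurd hj' (not_lt.2 hj.le)
  rw [Finset.prod_congr rfl (fun i _ => h1 i), Finset.prod_mul_distrib]
  have h2 : ∏ i, ∏ j ∈ Finset.Iio i, ‖x i - x j‖ = ∏ i, ∏ j ∈ Finset.Ioi i, ‖x i - x j‖ := by
    rw [Finset.prod_comm' (t' := Finset.univ) (s' := fun i => Finset.Ioi i)]
    · apply Finset.prod_congr rfl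
      intro i _
      apply Finset.prod_congr rfl
      intro j _
      exact norm_sub_rev _ _
    · intro i j
      simp
  rw [h2, Matrix.det_vandermonde, norm_prod, sq]
  congr 1 <;>
  · apply Finset.prod_congr rfl
    intro i _
    rw [norm_prod]
    apply Finset.prod_congr rfl
    intro j _
    exact norm_sub_rev _ _

theorem MM_eq (f : ℤ[X]) (hm : f.Monic) (x : Fin f.natDegree → ℂ)
    (hx : f.map (Int.castRingHom ℂ) = ∏ i, (X - C (x i))) : MM f = ∏ i, max 1 ‖x i‖ := by
  unfold MM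
  rw [mahlerMeasure_eq_leadingCoeff_mul_prod_roots]
  have h1 : (f.map (Int.castRingHom ℂ)).leadingCoeff = 1 := hm.map _
  rw [h1, hx, norm_one, one_mul]
  have h2 : (∏ i, (X - C (x i)) : ℂ[X]).roots = Finset.univ.val.map x := by
    have := roots_multiset_prod_X_sub_C (Finset.univ.val.map x)
    rw [Multiset.map_map] at this
    exact this
  rw [h2, Multiset.map_map]
  rfl

theorem Am_bound (f : ℤ[X]) (hm : f.Monic) (hi : Irreducible f) : (Am f).det ≠ 0 ∧
    |(((Am f).det : ℤ) : ℝ)| ≤ (f.natDegree : ℝ) ^ (2 * f.natDegree) * MM f ^ (2 * f.natDegree) := by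
  classical
  obtain ⟨x, hinj, hx⟩ := exists_enum f hm hi
  have h1 := Am_det f hm x hinj hx
  have h2 : ∀ i, aeval (x i) (derivative f) ≠ 0 := by
    intro i
    rw [aeval_deriv f x hx i, Finset.prod_ne_zero_iff]
    intro j hj
    rw [Finset.mem_erase] at hj
    exact sub_ne_zero.2 (fun h => hj.1 (hinj h).symm)
  refine ⟨?_, ?_⟩
  · intro h
    rw [h, Int.cast_zero] at h1
    exact (Finset.prod_ne_zero_iff.2 (fun i _ => h2 i)) h1.symm
  · have h3 : |(((Am f).det : ℤ) : ℝ)| = ‖(((Am f).det : ℤ) : ℂ)‖ := by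
      rw [← Real.norm_eq_abs, ← Complex.norm_real]
      congr 1
    rw [h3, h1, norm_prod]
    have h4 : ∏ i, ‖aeval (x i) (derivative f)‖ = ‖(Matrix.vandermonde x).det‖ ^ 2 := by
      rw [← prod_diff]
      apply Finset.prod_congr rfl
      intro i _
      rw [aeval_deriv f x hx i, norm_prod]
    rw [h4, MM_eq f hm x hx]
    have h5 := vdm_bound x
    have h6 : (f.natDegree.factorial : ℝ) ≤ (f.natDegree : ℝ) ^ f.natDegree := by
      exact_mod_cast Nat.factorial_le_pow f.natDegree
    have h7 : 0 ≤ ∏ i, max 1 ‖x i‖ := Finset.prod_nonneg fun i _ => le_trans zero_le_one (le_max_left _ _)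
    calc ‖(Matrix.vandermonde x).det‖ ^ 2 ≤
        ((f.natDegree.factorial : ℝ) * (∏ i, max 1 ‖x i‖) ^ f.natDegree) ^ 2 :=
          pow_le_pow_left₀ (norm_nonneg _) h5 2
      _ ≤ ((f.natDegree : ℝ) ^ f.natDegree * (∏ i, max 1 ‖x i‖) ^ f.natDegree) ^ 2 := by
          gcongr
      _ = _ := by
          rw [mul_pow, ← pow_mul, ← pow_mul, mul_comm f.natDegree 2]

end Pool.Agent.D0H87.MD
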