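import Mathlib
import Pool.Agent.D0H87.MD.BadA

/-!
# Project MD, module 7 BAD
-/

set_option autoImplicit false

open Module Polynomial

namespace Pool.Agent.D0H87.MD

open Pool.Agent.D0H56.MD

theorem mod_lin {κ : Type} [Field κ] (f : ℤ[X]) (hm : f.Monic) (g : κ[X])
    (hg : g ∈ degreeLT κ f.natDegree) (i : Fin f.natDegree) :
    ((Am f).map (Int.cast : ℤ → κ)).mulVec (fun j => g.coeff j) i =
      ((g * derivative (f.map (Int.castRingHom κ))) %ₘ (f.map (Int.castRingHom κ))).coeff i := by
  set F := f.map (Int.castRingHom κ) with hF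
  have hn : g.natDegree < f.natDegree := by
    rw [mem_degreeLT] at hg
    by_cases h0 : g = 0
    · rw [h0, natDegree_zero]; exact lt_of_le_of_lt (Nat.zero_le _) i.2
    · exact (natDegree_lt_iff_degree_lt h0).2 hg
  have h1 : g * derivative F = ∑ j ∈ Finset.range f.natDegree, g.coeff j • (X ^ j * derivative F) := by
    conv_lhs => rw [as_sum_range_C_mul_X_pow' g hn]
    rw [Finset.sum_mul]
    apply Finset.sum_congr rfl
    intro j _
    rw [smul_eq_C_mul, mul_assoc]
  have h2 : (g * derivative F) %ₘ F = modByMonicHom F (g * derivative F) := rfl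
  rw [h2, h1, map_sum, finsetSum_coeff, Matrix.mulVec, dotProduct, Finset.sum_range]
  apply Finset.sum_congr rfl
  intro j _
  rw [map_smul, coeff_smul, smul_eq_mul, mul_comm]
  congr 1
  have h3 : modByMonicHom F (X ^ (j : ℕ) * derivative F) =
      ((X ^ (j : ℕ) * derivative f) %ₘ f).map (Int.castRingHom κ) := by
    rw [Polynomial.map_modByMonic _ hm, Polynomial.map_mul, Polynomial.map_pow, map_X,
      ← derivative_map]
    rfl
  rw [h3, coeff_map]
  simp [Am]

theorem dvd_der {κ : Type} [Field κ] {n : ℕ} (c : Fin n → κ) [DecidableEq κ] :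
    (∏ i, (X - C (c i)) : κ[X]) ∣
      (∏ y ∈ Finset.univ.image c, (X - C y)) * derivative (∏ i, (X - C (c i)) : κ[X]) := by
  rw [derivative_prod_finset, Finset.mul_sum]
  apply Finset.dvd_sum
  intro i _
  have h1 : (∏ i, (X - C (c i)) : κ[X]) = (X - C (c i)) * ∏ j ∈ Finset.univ.erase i, (X - C (c j)) :=
    (Finset.mul_prod_erase Finset.univ (fun i => (X - C (c i) : κ[X])) (Finset.mem_univ i)).symm
  rw [h1]
  apply mul_dvd_mul
  · exact Finset.dvd_prod_of_mem (fun y => (X - C y : κ[X])) (Finset.mem_image_of_mem c (Finset.mem_univ i))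
  · exact dvd_mul_right _ _

theorem ker_dim {κ : Type} [Field κ] [DecidableEq κ] (f : ℤ[X]) (hm : f.Monic)
    (c : Fin f.natDegree → κ) (hc : f.map (Int.castRingHom κ) = ∏ i, (X - C (c i))) :
    ∃ V : Submodule κ (Fin f.natDegree → κ),
      finrank κ V = f.natDegree - (Finset.univ.image c).card ∧
      ∀ v ∈ V, ((Am f).map (Int.cast : ℤ → κ)).mulVec v = 0 := by
  set m := (Finset.univ.image c).card with hmm
  have hmn : m ≤ f.natDegree := by
    have := Finset.card_image_le (s := (Finset.univ : Finset (Fin f.natDegree))) (f := c)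
    rwa [Finset.card_univ, Fintype.card_fin] at this
  set h : κ[X] := ∏ y ∈ Finset.univ.image c, (X - C y) with hh
  have hhm : h.Monic := monic_prod_of_monic _ _ fun y _ => monic_X_sub_C y
  have hh0 : h ≠ 0 := hhm.ne_zero
  have hhd : h.natDegree = m := by
    rw [hh, natDegree_prod_of_monic _ _ (fun y _ => monic_X_sub_C y)]
    simp [hmm]
  have hdeg : ∀ q ∈ degreeLT κ (f.natDegree - m), h * q ∈ degreeLT κ f.natDegree := by
    intro q hq
    rw [mem_degreeLT] at hq ⊢
    by_cases hq0 : q = 0
    · rw [hq0, mul_zero, degree_zero]; exact WithBot.bot_lt_coe _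
    · rw [degree_mul, degree_eq_natDegree hh0, degree_eq_natDegree hq0, hhd]
      rw [degree_eq_natDegree hq0] at hq
      have h1 : q.natDegree < f.natDegree - m := by exact_mod_cast hq
      have h2 : m + q.natDegree < f.natDegree := by omega
      exact_mod_cast h2
  let L : degreeLT κ (f.natDegree - m) →ₗ[κ] (Fin f.natDegree → κ) :=
    (LinearMap.pi fun i : Fin f.natDegree => lcoeff κ (i : ℕ)) ∘ₗ (LinearMap.mulLeft κ h) ∘ₗ
      (degreeLT κ (f.natDegree - m)).subtype
  have hL : ∀ q i, L q i = (h * (q : κ[X])).coeff i := fun q i => rfl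
  have hLinj : Function.Injective L := by
    rw [← LinearMap.ker_eq_bot, LinearMap.ker_eq_bot']
    intro q hq
    have h1 : h * (q : κ[X]) = 0 := by
      ext i
      rw [coeff_zero]
      by_cases hi : i < f.natDegree
      · have := congrFun hq ⟨i, hi⟩
        rw [hL] at this
        exact this
      · have h2 := hdeg q q.2
        rw [mem_degreeLT] at h2
        exact coeff_eq_zero_of_degree_lt (lt_of_lt_of_le h2 (by exact_mod_cast not_lt.1 hi))
    have h2 := (mul_eq_zero.1 h1).resolve_left hh0
    exact Subtype.ext h2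
  refine ⟨LinearMap.range L, ?_, ?_⟩
  · rw [LinearMap.finrank_range_of_inj hLinj, (degreeLTEquiv κ (f.natDegree - m)).finrank_eq,
      Module.finrank_fin_fun]
  · rintro v ⟨q, rfl⟩
    funext i
    have h1 := mod_lin f hm (h * (q : κ[X])) (hdeg q q.2) i
    have h2 : (fun j : Fin f.natDegree => (h * (q : κ[X])).coeff j) = L q := rfl
    rw [h2] at h1
    rw [h1]
    have h3 : (h * (q : κ[X]) * derivative (f.map (Int.castRingHom κ))) %ₘ
        (f.map (Int.castRingHom κ)) = 0 := by
      rw [modByMonic_eq_zero_iff_dvd (hm.map _), hc]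
      have h4 := dvd_der c
      have h5 : h * (q : κ[X]) * derivative (∏ i, (X - C (c i)) : κ[X]) =
          (h * derivative (∏ i, (X - C (c i)) : κ[X])) * q := by ring
      rw [h5]
      exact Dvd.dvd.mul_right h4 _
    rw [h3]
    simp

theorem comb {κ : Type} [DecidableEq κ] {n : ℕ} (c : Fin n → κ) :
    (Finset.univ.filter (fun i => ∃ j, j ≠ i ∧ c j = c i)).card ≤
      2 * (n - (Finset.univ.image c).card) := by
  classical
  set I2 := Finset.univ.filter (fun i : Fin n => ∃ j, j ≠ i ∧ c j = c i) with hI2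
  set Y := Finset.univ.image c with hY
  have h1 : I2.card = ∑ y ∈ Y, (I2.filter (fun i => c i = y)).card :=
    Finset.card_eq_sum_card_fiberwise (fun i _ => Finset.mem_image_of_mem c (Finset.mem_univ i))
  have h2 : (Finset.univ : Finset (Fin n)).card =
      ∑ y ∈ Y, ((Finset.univ : Finset (Fin n)).filter (fun i => c i = y)).card :=
    Finset.card_eq_sum_card_fiberwise (fun i _ => Finset.mem_image_of_mem c (Finset.mem_univ i))
  rw [Finset.card_univ, Fintype.card_fin] at h2
  have h3 : ∀ y ∈ Y, 2 + (I2.filter (fun i => c i = y)).card ≤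
      2 * ((Finset.univ : Finset (Fin n)).filter (fun i => c i = y)).card := by
    intro y hy
    rw [hY, Finset.mem_image] at hy
    obtain ⟨i0, _, hi0⟩ := hy
    have h4 : (I2.filter (fun i => c i = y)).card ≤
        ((Finset.univ : Finset (Fin n)).filter (fun i => c i = y)).card :=
      Finset.card_le_card (Finset.filter_subset_filter _ (Finset.subset_univ _))
    by_cases h5 : 2 ≤ ((Finset.univ : Finset (Fin n)).filter (fun i => c i = y)).card
    · omega
    · have h6 : 1 ≤ ((Finset.univ : Finset (Fin n)).filter (fun i => c i = y)).card :=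
        Finset.card_pos.2 ⟨i0, Finset.mem_filter.2 ⟨Finset.mem_univ _, hi0⟩⟩
      have h7 : ((Finset.univ : Finset (Fin n)).filter (fun i => c i = y)).card ≤ 1 := by omega
      have h8 : (I2.filter (fun i => c i = y)) = ∅ := by
        rw [Finset.filter_eq_empty_iff]
        intro i hi hiy
        rw [hI2, Finset.mem_filter] at hi
        obtain ⟨_, j, hji, hj⟩ := hi
        apply hji
        exact Finset.card_le_one.1 h7 j (Finset.mem_filter.2 ⟨Finset.mem_univ _, hj.trans hiy⟩) i
          (Finset.mem_filter.2 ⟨Finset.mem_univ _, hiy⟩)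
      rw [h8, Finset.card_empty]
      omega
  have h4 := Finset.sum_le_sum h3
  rw [Finset.sum_add_distrib, ← h1, ← Finset.mul_sum, ← h2, Finset.sum_const, smul_eq_mul] at h4
  omega

theorem bad (hco : S_CORANK) (f : ℤ[X]) (hm : f.Monic) (hi : Irreducible f) (p : ℕ)
    (O : ValuationSubring ℂ) (hp : p.Prime) (hv : O.valuation (p : ℂ) < 1) :
    (p : ℤ) ^ Set.ncard {r : ℂ | aeval r f = 0 ∧ O.valuation (aeval r (derivative f)) < 1} ∣
      (Am f).det ^ 2 := by
  classical
  obtain ⟨x, hinj, hx⟩ := exists_enum f hm hi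
  have hint : ∀ i, x i ∈ O := by
    intro i
    have h1 : IsIntegral ℤ (x i) := ⟨f, hm, by rw [← aeval_def]; exact aeval_root f x hx i⟩
    have h2 : IsIntegral O (x i) := h1.tower_top
    obtain ⟨y, hy⟩ := IsIntegrallyClosed.isIntegral_iff.1 h2
    rw [← hy]
    exact y.2
  set x' : Fin f.natDegree → O := fun i => ⟨x i, hint i⟩ with hx'
  have hO : f.map (Int.castRingHom O) = ∏ i, (X - C (x' i)) := by
    apply Polynomial.map_injective (algebraMap O ℂ) (IsFractionRing.injective O ℂ)
    rw [Polynomial.map_map, Polynomial.map_prod]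
    have h1 : (algebraMap O ℂ).comp (Int.castRingHom O) = Int.castRingHom ℂ := RingHom.ext_int _ _
    rw [h1, hx]
    apply Finset.prod_congr rfl
    intro i _
    rw [Polynomial.map_sub, map_X, map_C]
    rfl
  set c : Fin f.natDegree → IsLocalRing.ResidueField O := fun i => IsLocalRing.residue O (x' i) with hc
  have hF : f.map (Int.castRingHom (IsLocalRing.ResidueField O)) = ∏ i, (X - C (c i)) := by
    have h1 : (IsLocalRing.residue O).comp (Int.castRingHom O) =
        Int.castRingHom (IsLocalRing.ResidueField O) := RingHom.ext_int _ _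
    rw [← h1, ← Polynomial.map_map, hO, Polynomial.map_prod]
    apply Finset.prod_congr rfl
    intro i _
    rw [Polynomial.map_sub, map_X, map_C]
  have hpz : ((p : ℕ) : IsLocalRing.ResidueField O) = 0 := by
    have h1 : ((p : ℕ) : O) ∈ IsLocalRing.maximalIdeal O := by
      rw [ValuationSubring.valuation_lt_one_iff]
      exact_mod_cast hv
    have h2 := (IsLocalRing.residue_eq_zero_iff _).2 h1
    rw [map_natCast] at h2
    exact h2
  have hch : CharP (IsLocalRing.ResidueField O) p := (CharP.charP_iff_prime_eq_zero hp).2 hpz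
  obtain ⟨V, hV1, hV2⟩ := ker_dim f hm c hF
  have h1 := hco p (IsLocalRing.ResidueField O) f.natDegree (Am f) hp V hV2
  rw [hV1] at h1
  have h2 : (p : ℤ) ^ (2 * (f.natDegree - (Finset.univ.image c).card)) ∣ (Am f).det ^ 2 := by
    rw [mul_comm, pow_mul]
    exact pow_dvd_pow_of_dvd h1 2
  refine dvd_trans (pow_dvd_pow _ ?_) h2
  refine le_trans ?_ (comb c)
  have h3 : {r : ℂ | aeval r f = 0 ∧ O.valuation (aeval r (derivative f)) < 1} ⊆
      x '' ((Finset.univ.filter (fun i => ∃ j, j ≠ i ∧ c j = c i) : Finset (Fin f.natDegree)) :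
        Set (Fin f.natDegree)) := by
    rintro r ⟨hr1, hr2⟩
    have h4 : ∃ i, r = x i := by
      rw [aeval_def, eval₂_eq_eval_map] at hr1
      have h5 : algebraMap ℤ ℂ = Int.castRingHom ℂ := rfl
      rw [h5, hx, eval_prod, Finset.prod_eq_zero_iff] at hr1
      obtain ⟨i, _, h6⟩ := hr1
      refine ⟨i, ?_⟩
      rw [eval_sub, eval_X, eval_C] at h6
      exact sub_eq_zero.1 h6
    obtain ⟨i, rfl⟩ := h4
    refine ⟨i, ?_, rfl⟩
    rw [Finset.mem_coe, Finset.mem_filter]
    refine ⟨Finset.mem_univ _, ?_⟩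
    rw [aeval_deriv f x hx i] at hr2
    have h5 : (∏ j ∈ Finset.univ.erase i, (x i - x j)) =
        ((∏ j ∈ Finset.univ.erase i, (x' i - x' j) : O) : ℂ) := by
      push_cast
      rfl
    rw [h5, ← ValuationSubring.valuation_lt_one_iff, Ideal.IsPrime.prod_mem_iff] at hr2
    obtain ⟨j, hj, h6⟩ := hr2
    refine ⟨j, (Finset.mem_erase.1 hj).1, ?_⟩
    have h7 := (IsLocalRing.residue_eq_zero_iff _).2 h6
    rw [map_sub, sub_eq_zero] at h7
    exact h7.symm
  calc _ ≤ (x '' ((Finset.univ.filter (fun i => ∃ j, j ≠ i ∧ c j = c i) : Finset (Fin f.natDegree)) :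
        Set (Fin f.natDegree))).ncard := Set.ncard_le_ncard h3 (Set.toFinite _)
    _ ≤ _ := by
      refine (Set.ncard_image_le (Set.toFinite _)).trans ?_
      rw [Set.ncard_coe_finset]

theorem t_BAD (hco : S_CORANK) : S_BAD := fun f hm hi =>
  ⟨(Am f).det, (Am_bound f hm hi).1, (Am_bound f hm hi).2, fun p O hp hv => bad hco f hm hi p O hp hv⟩

end Pool.Agent.D0H87.MD
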