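import Mathlib
import Pool.Agent.D0H56.MD.Defs

/-!
# Project MD, module 6 CORANK
-/

set_option autoImplicit false

open Module Polynomial

namespace Pool.Agent.D0H87.MD

open Pool.Agent.D0H56.MD

/-- rows divisible by `p` -/
theorem rows_dvd {n : ℕ} (p : ℤ) (B : Matrix (Fin n) (Fin n) ℤ) (S : Finset (Fin n))
    (h : ∀ i ∈ S, ∀ j, p ∣ B i j) : p ^ S.card ∣ B.det := by
  classical
  choose! c hc using h
  set B' : Matrix (Fin n) (Fin n) ℤ := fun i j => if i ∈ S then c i j else B i j with hB'
  have h1 : B = Matrix.diagonal (fun i => if i ∈ S then p else 1) * B' := by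
    ext i j
    rw [Matrix.diagonal_mul]
    by_cases hi : i ∈ S
    · simp only [hB', hi, if_true]
      exact hc i hi j
    · simp only [hB', hi, if_false, one_mul]
  rw [h1, Matrix.det_mul, Matrix.det_diagonal]
  have h2 : ∏ i : Fin n, (if i ∈ S then p else 1) = p ^ S.card := by
    rw [Finset.prod_ite_mem, Finset.univ_inter, Finset.prod_const]
  rw [h2]
  exact dvd_mul_right _ _

theorem t_CORANK : S_CORANK := by
  classical
  intro p κ _ _ n A hp V hV
  have : Fact p.Prime := ⟨hp⟩
  obtain ⟨L, L', D, hD⟩ := Matrix.Pivot.exists_list_transvec_mul_mul_list_transvec_eq_diagonal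
    (A.map (Int.cast : ℤ → ZMod p))
  set P : Matrix (Fin n) (Fin n) (ZMod p) := (L.map Matrix.TransvectionStruct.toMatrix).prod with hP
  set Q : Matrix (Fin n) (Fin n) (ZMod p) := (L'.map Matrix.TransvectionStruct.toMatrix).prod with hQ
  have hPd : P.det = 1 := Matrix.TransvectionStruct.det_toMatrix_prod L
  have hQd : Q.det = 1 := Matrix.TransvectionStruct.det_toMatrix_prod L'
  set lift : ZMod p → ℤ := fun x => (x.val : ℤ) with hlift
  have hl : ∀ x : ZMod p, ((lift x : ℤ) : ZMod p) = x := by
    intro x; simp [hlift]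
  set U : Matrix (Fin n) (Fin n) ℤ := P.map lift with hU
  set W : Matrix (Fin n) (Fin n) ℤ := Q.map lift with hW
  have hU' : U.map (Int.cast : ℤ → ZMod p) = P := by
    ext i j; simp only [hU, Matrix.map_apply]; exact hl _
  have hW' : W.map (Int.cast : ℤ → ZMod p) = Q := by
    ext i j; simp only [hW, Matrix.map_apply]; exact hl _
  have hmap : ∀ M : Matrix (Fin n) (Fin n) ℤ, M.map (Int.cast : ℤ → ZMod p) =
      (Int.castRingHom (ZMod p)).mapMatrix M := fun M => rfl
  have hB : (U * A * W).map (Int.cast : ℤ → ZMod p) = Matrix.diagonal D := by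
    rw [← hD, hmap, map_mul, map_mul, ← hmap, ← hmap, ← hmap, hU', hW']
  set S : Finset (Fin n) := Finset.univ.filter (fun i => D i = 0) with hS
  have h1 : (p : ℤ) ^ S.card ∣ (U * A * W).det := by
    apply rows_dvd
    intro i hi j
    rw [hS, Finset.mem_filter] at hi
    rw [← ZMod.intCast_zmod_eq_zero_iff_dvd]
    have h2 := congrFun (congrFun hB i) j
    rw [Matrix.map_apply] at h2
    rw [h2]
    by_cases hij : i = j
    · subst hij; rw [Matrix.diagonal_apply_eq]; exact hi.2
    · rw [Matrix.diagonal_apply_ne _ hij]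
  have hUd : ((U.det : ℤ) : ZMod p) = 1 := by
    rw [← hPd, ← hU', hmap]
    exact RingHom.map_det (Int.castRingHom (ZMod p)) U
  have hWd : ((W.det : ℤ) : ZMod p) = 1 := by
    rw [← hQd, ← hW', hmap]
    exact RingHom.map_det (Int.castRingHom (ZMod p)) W
  have hpI : Prime (p : ℤ) := Nat.prime_iff_prime_int.1 hp
  have hcop : ∀ m : ℤ, ((m : ℤ) : ZMod p) = 1 → IsCoprime ((p : ℤ) ^ S.card) m := by
    intro m hm
    apply IsCoprime.pow_left
    rw [(Prime.coprime_iff_not_dvd hpI)]
    intro hd
    rw [(ZMod.intCast_zmod_eq_zero_iff_dvd m p).2 hd] at hm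
    exact zero_ne_one hm
  have h2 : (p : ℤ) ^ S.card ∣ A.det := by
    rw [Matrix.det_mul, Matrix.det_mul] at h1
    have h3 := (hcop _ hWd).dvd_of_dvd_mul_right h1
    exact (hcop _ hUd).dvd_of_dvd_mul_left h3
  refine dvd_trans (pow_dvd_pow _ ?_) h2
  -- the dimension of the kernel over `κ`
  set φ : ZMod p →+* κ := ZMod.castHom (dvd_refl p) κ with hφ
  have hmk : ∀ M : Matrix (Fin n) (Fin n) ℤ, M.map (Int.cast : ℤ → κ) =
      φ.mapMatrix (M.map (Int.cast : ℤ → ZMod p)) := by
    intro M
    ext i j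
    simp [RingHom.mapMatrix_apply, Matrix.map_apply]
  have h3 : φ.mapMatrix P * A.map (Int.cast : ℤ → κ) * φ.mapMatrix Q =
      Matrix.diagonal (fun i => φ (D i)) := by
    rw [hmk, ← map_mul, ← map_mul, hD]
    ext i j
    simp only [RingHom.mapMatrix_apply, Matrix.map_apply]
    by_cases hij : i = j
    · subst hij; rw [Matrix.diagonal_apply_eq, Matrix.diagonal_apply_eq]
    · rw [Matrix.diagonal_apply_ne _ hij, Matrix.diagonal_apply_ne _ hij, map_zero]
  have h4 : (Matrix.diagonal (fun i => φ (D i))).rank ≤ (A.map (Int.cast : ℤ → κ)).rank := by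
    rw [← h3]
    exact (Matrix.rank_mul_le_left _ _).trans (Matrix.rank_mul_le_right _ _)
  rw [Matrix.rank_diagonal] at h4
  have h5 := LinearMap.finrank_range_add_finrank_ker (A.map (Int.cast : ℤ → κ)).mulVecLin
  rw [Module.finrank_fin_fun] at h5
  have h6 : finrank κ V ≤ finrank κ (LinearMap.ker (A.map (Int.cast : ℤ → κ)).mulVecLin) := by
    apply Submodule.finrank_mono
    intro v hv
    rw [LinearMap.mem_ker, Matrix.mulVecLin_apply]
    exact hV v hv
  have h7 : (Finset.univ.filter (fun i => D i ≠ 0)).card ≤ (A.map (Int.cast : ℤ → κ)).rank := by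
    refine le_trans (le_of_eq ?_) h4
    rw [Fintype.card_subtype]
    congr 1
    ext i
    simp only [Finset.mem_filter, Finset.mem_univ, true_and, ne_eq]
    rw [map_eq_zero]
  have h8 : S.card + (Finset.univ.filter (fun i => D i ≠ 0)).card = n := by
    have := Finset.card_filter_add_card_filter_not (s := (Finset.univ : Finset (Fin n))) (fun i => D i = 0)
    rw [Finset.card_univ, Fintype.card_fin] at this
    exact this
  have h9 : (A.map (Int.cast : ℤ → κ)).rank =
      finrank κ (LinearMap.range (A.map (Int.cast : ℤ → κ)).mulVecLin) := rfl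
  omega

end Pool.Agent.D0H87.MD
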